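import Mathlib

set_option autoImplicit false

open Finset

namespace Pool.Agent.Results.MP_9fbb3c_co.NoColouring

/-- `blk` lists the `b` blocks (repetitions allowed) of a `(v, k, lam)`-BIBD on the points `Fin v`:
`2 ≤ k < v`, every block has `k` points and every pair of distinct points lies in exactly `lam ≥ 1`
blocks. -/
def IsBIBD (v k lam b : ℕ) (blk : Fin b → Finset (Fin v)) : Prop :=
  2 ≤ k ∧ k < v ∧ 1 ≤ lam ∧ (∀ i, (blk i).card = k) ∧
    ∀ x y : Fin v, x ≠ y → (#{i | x ∈ blk i ∧ y ∈ blk i}) = lam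

/-- A symmetric BIBD with `v` points and block size `k`: a BIBD with `b = v` blocks. -/
def IsSymmetric (v k : ℕ) (blk : Fin v → Finset (Fin v)) : Prop :=
  ∃ lam, IsBIBD v k lam v blk

/-- `f` is a `0`-ULSE `l`-colouring: a surjection onto `l` colours such that `(l - 1) ∣ k` and in
every block exactly one colour does not occur and each other colour occurs exactly `k / (l - 1)`
times. -/
def IsULSE (v k l b : ℕ) (blk : Fin b → Finset (Fin v)) (f : Fin v → Fin l) : Prop :=
  Function.Surjective f ∧ (l - 1) ∣ k ∧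
    ∀ i : Fin b, ∃ c : Fin l, (#{x ∈ blk i | f x = c}) = 0 ∧
      ∀ c' : Fin l, c' ≠ c → (#{x ∈ blk i | f x = c'}) = k / (l - 1) ∧ 0 < k / (l - 1)

/-- The relation `(∗)`: `v = l (l - 2) k / ((l - 1)² - k)`. -/
def Star (v k l : ℕ) : Prop :=
  k < (l - 1) ^ 2 ∧ v * ((l - 1) ^ 2 - k) = l * (l - 2) * k

/-- In a `0`-ULSE coloured BIBD with `r` blocks on each point, a colour class with `s` points
satisfies `r (m - 1) = lam (s - 1)` where `m = k / (l - 1)`. -/
theorem class_size {v k lam b l : ℕ} (blk : Fin b → Finset (Fin v)) (f : Fin v → Fin l)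
    (hB : IsBIBD v k lam b blk) (hf : IsULSE v k l b blk f) (r : ℕ)
    (hr : ∀ x, (#{i | x ∈ blk i}) = r) (c : Fin l) :
    r * (k / (l - 1) - 1) = lam * ((#{x | f x = c}) - 1) := by
  obtain ⟨-, -, -, hk, hlam⟩ := hB
  obtain ⟨hs, -, hcol⟩ := hf
  set m := k / (l - 1) with hm
  set C : Finset (Fin v) := {x | f x = c} with hC
  have hCpos : 0 < C.card := by
    obtain ⟨x, hx⟩ := hs c
    exact Finset.card_pos.2 ⟨x, by simp [hC, hx]⟩
  -- fix a point of the class
  obtain ⟨x, hx⟩ := hs c
  -- count pairs (y, i) with y ≠ x in the class and x, y in block i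
  have h1 : ∑ y ∈ C.erase x, (#{i | x ∈ blk i ∧ y ∈ blk i}) = lam * (C.card - 1) := by
    rw [Finset.sum_congr rfl fun y hy => hlam x y (Finset.ne_of_mem_erase hy).symm,
      Finset.sum_const, Finset.card_erase_of_mem (by simp [hC, hx]), smul_eq_mul, mul_comm]
  have h2 : ∑ y ∈ C.erase x, (#{i | x ∈ blk i ∧ y ∈ blk i}) = r * (m - 1) := by
    have h3 : ∀ y ∈ C.erase x, (#{i | x ∈ blk i ∧ y ∈ blk i}) =
        ∑ i ∈ ({i | x ∈ blk i} : Finset (Fin b)), if y ∈ blk i then 1 else 0 := by
      intro y _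
      rw [← Finset.card_filter, Finset.filter_filter]
    rw [Finset.sum_congr rfl h3, Finset.sum_comm]
    have h4 : ∀ i ∈ ({i | x ∈ blk i} : Finset (Fin b)),
        (∑ y ∈ C.erase x, if y ∈ blk i then 1 else 0) = m - 1 := by
      intro i hi
      have hxi : x ∈ blk i := by simpa using hi
      rw [← Finset.card_filter]
      have h5 : (#{y ∈ blk i | f y = c}) = m := by
        obtain ⟨c0, h0, hc0⟩ := hcol i
        have hne : c ≠ c0 := by
          rintro rfl
          rw [Finset.card_eq_zero] at h0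
          have : x ∈ ({y ∈ blk i | f y = c} : Finset (Fin v)) := by simp [hxi, hx]
          rw [h0] at this
          simp at this
        exact (hc0 c hne).1
      have h6 : (C.erase x).filter (fun y => y ∈ blk i) =
          ({y ∈ blk i | f y = c} : Finset (Fin v)).erase x := by
        ext y
        simp only [hC, Finset.mem_filter, Finset.mem_erase, Finset.mem_univ, true_and]
        tauto
      rw [h6, Finset.card_erase_of_mem (by simp [hxi, hx]), h5]
    rw [Finset.sum_congr rfl h4, Finset.sum_const, hr x, smul_eq_mul]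
  rw [← h2, h1]

/-- the number of blocks on a point -/
theorem rep {v k lam b : ℕ} (blk : Fin b → Finset (Fin v)) (hB : IsBIBD v k lam b blk)
    (x : Fin v) : (#{i | x ∈ blk i}) * (k - 1) = lam * (v - 1) := by
  obtain ⟨-, -, -, hk, hlam⟩ := hB
  have h1 : ∑ y ∈ Finset.univ.erase x, (#{i | x ∈ blk i ∧ y ∈ blk i}) = lam * (v - 1) := by
    rw [Finset.sum_congr rfl fun y hy => hlam x y (Finset.ne_of_mem_erase hy).symm,
      Finset.sum_const, Finset.card_erase_of_mem (Finset.mem_univ x), smul_eq_mul, mul_comm,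
      Finset.card_univ, Fintype.card_fin]
  rw [← h1]
  have h3 : ∀ y ∈ Finset.univ.erase x, (#{i | x ∈ blk i ∧ y ∈ blk i}) =
      ∑ i ∈ ({i | x ∈ blk i} : Finset (Fin b)), if y ∈ blk i then 1 else 0 := by
    intro y _
    rw [← Finset.card_filter, Finset.filter_filter]
  rw [Finset.sum_congr rfl h3, Finset.sum_comm]
  have h4 : ∀ i ∈ ({i | x ∈ blk i} : Finset (Fin b)),
      (∑ y ∈ Finset.univ.erase x, if y ∈ blk i then 1 else 0) = k - 1 := by
    intro i hi
    have hxi : x ∈ blk i := by simpa using hi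
    rw [← Finset.card_filter, Finset.filter_erase, Finset.filter_mem_eq_inter,
      Finset.univ_inter, Finset.card_erase_of_mem hxi, hk i]
  rw [Finset.sum_congr rfl h4, Finset.sum_const, smul_eq_mul]

/-- a symmetric design with `16` points and block size `10` -/
def D16 (i : Fin 16) : Finset (Fin 16) :=
  Finset.univ.filter fun x => (x.1 / 4 = i.1 / 4) ↔ (x.1 % 4 = i.1 % 4)

theorem D16_sym : IsSymmetric 16 10 D16 := by
  refine ⟨6, by norm_num, by norm_num, by norm_num, ?_, ?_⟩
  · decide +kernel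
  · decide +kernel

theorem no_colouring (blk : Fin 16 → Finset (Fin 16)) (h : IsSymmetric 16 10 blk) :
    ¬ ∃ f : Fin 16 → Fin 6, IsULSE 16 10 6 16 blk f := by
  rintro ⟨f, hf⟩
  obtain ⟨lam, hB⟩ := h
  have hr : ∀ x, (#{i | x ∈ blk i}) * 9 = lam * 15 := fun x => rep blk hB x
  -- total incidence count
  have hsum : ∑ x : Fin 16, (#{i | x ∈ blk i}) = 160 := by
    have h3 : ∀ x ∈ (Finset.univ : Finset (Fin 16)), (#{i | x ∈ blk i}) =
        ∑ i : Fin 16, if x ∈ blk i then 1 else 0 := by
      intro y _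
      rw [← Finset.card_filter]
    rw [Finset.sum_congr rfl h3, Finset.sum_comm]
    have h4 : ∀ i ∈ (Finset.univ : Finset (Fin 16)), (∑ x : Fin 16, if x ∈ blk i then 1 else 0)
        = 10 := by
      intro i _
      rw [← Finset.card_filter, Finset.filter_mem_eq_inter, Finset.univ_inter, hB.2.2.2.1 i]
    rw [Finset.sum_congr rfl h4]
    simp
  have hlam : lam = 6 := by
    have h5 : (∑ x : Fin 16, (#{i | x ∈ blk i})) * 9 = ∑ x : Fin 16, lam * 15 := by
      rw [Finset.sum_mul]
      exact Finset.sum_congr rfl fun x _ => hr x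
    rw [hsum, Finset.sum_const, Finset.card_univ, Fintype.card_fin, smul_eq_mul] at h5
    omega
  subst hlam
  have hr' : ∀ x, (#{i | x ∈ blk i}) = 10 := fun x => by have := hr x; omega
  have := class_size blk f hB hf 10 hr' 0
  norm_num at this
  omega

/-- The triple `(v, k, l) = (16, 10, 6)` satisfies `(∗)`, symmetric BIBDs with `16` points and block
size `10` exist, but none of them has a `0`-ULSE `6`-colouring. So the assertion of Q1 fails. -/
theorem result :
    (Star 16 10 6 ∧ (∃ blk, IsSymmetric 16 10 blk) ∧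
      ∀ blk, IsSymmetric 16 10 blk → ¬ ∃ f, IsULSE 16 10 6 16 blk f) ∧
    ¬ ∀ v k l : ℕ, 0 < v → 0 < k → 0 < l → Star v k l → (∃ blk, IsSymmetric v k blk) →
      ∃ blk, IsSymmetric v k blk ∧ ∃ f, IsULSE v k l v blk f := by
  refine ⟨⟨⟨by norm_num, by norm_num⟩, ⟨D16, D16_sym⟩, no_colouring⟩, ?_⟩
  intro H
  obtain ⟨blk, h1, h2⟩ := H 16 10 6 (by norm_num) (by norm_num) (by norm_num)
    ⟨by norm_num, by norm_num⟩ ⟨D16, D16_sym⟩
  exact no_colouring blk h1 h2

end Pool.Agent.Results.MP_9fbb3c_co.NoColouring
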